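import Pool.Agent.W434.BW.StmA

/-! Project BW (helper883): the meet prime property from its core. -/

set_option autoImplicit false

namespace Pool.Agent.W883.BW

open Pool.Agent.W434.BW

variable {Ω : Type} {ar : Ω → ℕ}

/-- `n` steps of the relation `L` -/
def St {X : Type} (L : X → X → Prop) : ℕ → X → X → Prop
  | 0, x, y => x = y
  | n + 1, x, y => ∃ z, St L n x z ∧ L z y

theorem St_mono {X : Type} {L : X → X → Prop} (hL : ∀ x, L x x) {n m : ℕ} (h : n ≤ m) {x y : X}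
    (hxy : St L n x y) : St L m x y := by
  induction h with
  | refl => exact hxy
  | step _ ih => exact ⟨y, ih, hL y⟩

theorem St_of {X : Type} {L : X → X → Prop} {x y : X} (h : Relation.ReflTransGen L x y) :
    ∃ n, St L n x y := by
  induction h with
  | refl => exact ⟨0, rfl⟩
  | tail _ h2 ih =>
    obtain ⟨n, hn⟩ := ih
    exact ⟨n + 1, _, hn, h2⟩

theorem of_St {X : Type} {L : X → X → Prop} {n : ℕ} {x y : X} (h : St L n x y) :
    Relation.ReflTransGen L x y := by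
  induction n generalizing y with
  | zero =>
    have h' : x = y := h
    subst h'
    exact Relation.ReflTransGen.refl
  | succ n ih =>
    obtain ⟨z, h1, h2⟩ := h
    exact (ih h1).tail h2

theorem rel_St {X : Type} {a : Alg ar X} {L : X → X → Prop} (h : Rel a a L) (n : ℕ) :
    Rel a a (St L n) := by
  induction n with
  | zero =>
    intro ω x y hxy
    have : x = y := funext hxy
    exact congrArg _ this
  | succ n ih =>
    intro ω x y hxy
    choose z hz1 hz2 using hxy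
    exact ⟨a ω z, ih ω x z hz1, h ω z y hz2⟩

/-- the transitive closure of a reflexive compatible relation is compatible -/
theorem rel_rtg {X : Type} {a : Alg ar X} {L : X → X → Prop} (h : Rel a a L) (hL : ∀ x, L x x) :
    Rel a a (Relation.ReflTransGen L) := by
  intro ω x y hxy
  choose n hn using fun i => St_of (hxy i)
  refine of_St (n := Finset.univ.sup n) (rel_St h _ ω x y fun i => ?_)
  exact St_mono hL (Finset.le_sup (Finset.mem_univ i)) (hn i)

/-- BW-MP -/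
theorem mp (hF : S_fun) (hC : S_mpcore) : S_mp := by
  intro Ω ar u X Y Q _ _ _ a b q R h na nb nq fa fb fq sq lq hR hS hh hsurj
  -- first alternative
  have hK := hF Ω ar u X Q a q (fun x z => ∃ y, R x y ∧ h x y = z) na nq fa fq sq
    (by
      intro ω x z hxz
      choose y hy1 hy2 using hxz
      refine ⟨b ω y, hR ω x y hy1, ?_⟩
      rw [hh ω x y hy1]
      congr 1
      funext i
      exact hy2 i)
    ⟨fun x => by
      obtain ⟨y, hy⟩ := hS.1 x
      exact ⟨h x y, y, hy, rfl⟩, fun z => by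
      obtain ⟨x, y, hxy, hz⟩ := hsurj z
      exact ⟨x, y, hxy, hz⟩⟩
  rcases hK with hK | ⟨g, hg⟩
  swap
  · exact Or.inl ⟨g, fun x y hxy => (hg x (h x y)).1 ⟨y, hxy, rfl⟩⟩
  -- second alternative
  have hK' := hF Ω ar u Y Q b q (fun y z => ∃ x, R x y ∧ h x y = z) nb nq fb fq sq
    (by
      intro ω y z hyz
      choose x hx1 hx2 using hyz
      refine ⟨a ω x, hR ω x y hx1, ?_⟩
      rw [hh ω x y hx1]
      congr 1
      funext i
      exact hx2 i)
    ⟨fun y => by
      obtain ⟨x, hx⟩ := hS.2 y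
      exact ⟨h x y, x, hx, rfl⟩, fun z => by
      obtain ⟨x, y, hxy, hz⟩ := hsurj z
      exact ⟨y, x, hxy, hz⟩⟩
  rcases hK' with hK' | ⟨g, hg⟩
  swap
  · exact Or.inr ⟨g, fun x y hxy => (hg y (h x y)).1 ⟨x, hxy, rfl⟩⟩
  left
  rcases isEmpty_or_nonempty X with hX | ⟨⟨x₀⟩⟩
  · exact ⟨fun x => (hX.false x).elim, fun x => (hX.false x).elim⟩
  -- both full
  set L : X → X → Prop := fun a b => ∃ y, R a y ∧ R b y with hLdef
  have hLr : ∀ x, L x x := fun x => by
    obtain ⟨y, hy⟩ := hS.1 x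
    exact ⟨y, hy, hy⟩
  have hLc : Rel a a L := by
    intro ω x x' hxx
    choose y hy1 hy2 using hxx
    exact ⟨b ω y, hR ω x y hy1, hR ω x' y hy2⟩
  set X₀ : Set X := {x | Relation.ReflTransGen L x₀ x} with hX₀
  set Y₀ : Set Y := {y | ∃ x ∈ X₀, R x y} with hY₀
  have hX₀s : Sub a X₀ := by
    intro ω x hx
    have h1 := rel_rtg hLc hLr ω (fun _ => x₀) x hx
    rw [na.1 ω x₀] at h1
    exact h1
  have hY₀s : Sub b Y₀ := by
    intro ω y hy
    choose x hx1 hx2 using hy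
    exact ⟨a ω x, hX₀s ω x hx1, hR ω x y hx2⟩
  have hx₀ : x₀ ∈ X₀ := Relation.ReflTransGen.refl
  have hback : ∀ y ∈ Y₀, ∀ x, R x y → x ∈ X₀ := by
    rintro y ⟨x1, hx1, hxy1⟩ x hxy
    exact Relation.ReflTransGen.tail hx1 ⟨y, hxy1, hxy⟩
  have hne : Nonempty X₀ := ⟨⟨x₀, hx₀⟩⟩
  -- linked
  have hlink : ∀ x, Relation.ReflTransGen L x₀ x → ∀ hx : x ∈ X₀,
      Relation.ReflTransGen (fun a b : X₀ => ∃ y : Y₀, R a y ∧ R b y) ⟨x₀, hx₀⟩ ⟨x, hx⟩ := by
    intro x hx
    induction hx with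
    | refl => exact fun _ => Relation.ReflTransGen.refl
    | tail h1 h2 ih =>
      intro hx
      obtain ⟨y, hy1, hy2⟩ := h2
      exact (ih h1).tail ⟨⟨y, _, h1, hy1⟩, hy1, hy2⟩
  have hsymm : ∀ c d : X₀, Relation.ReflTransGen (fun a b : X₀ => ∃ y : Y₀, R a y ∧ R b y) c d →
      Relation.ReflTransGen (fun a b : X₀ => ∃ y : Y₀, R a y ∧ R b y) d c := by
    intro c d hcd
    induction hcd with
    | refl => exact Relation.ReflTransGen.refl
    | tail _ h2 ih =>
      obtain ⟨y, hy1, hy2⟩ := h2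
      exact Relation.ReflTransGen.head ⟨y, hy2, hy1⟩ ih
  have hlinked : Linked (fun (x : X₀) (y : Y₀) => R x y) := by
    intro x x'
    exact (hsymm _ _ (hlink x x.2 x.2)).trans (hlink x' x'.2 x'.2)
  have hone := hC Ω ar u X₀ Y₀ Q (subA a X₀ hX₀s) (subA b Y₀ hY₀s) q (fun x y => R x y)
    (fun x y => h x y) (nice_sub X₀ hX₀s na) (nice_sub Y₀ hY₀s nb) nq fq sq lq
    (fun ω x y hxy => hR ω _ _ hxy)
    ⟨fun x => by
      obtain ⟨y, hy⟩ := hS.1 x
      exact ⟨⟨y, x, x.2, hy⟩, hy⟩, fun y => by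
      obtain ⟨x, hx⟩ := hS.2 y
      exact ⟨⟨x, hback y y.2 x hx⟩, hx⟩⟩
    hlinked
    (fun ω x y hxy => hh ω _ _ hxy)
    (fun x z => by
      obtain ⟨y, hy, hz⟩ := hK x z
      exact ⟨⟨y, x, x.2, hy⟩, hy, hz⟩)
    (fun y z => by
      obtain ⟨x, hx, hz⟩ := hK' y z
      exact ⟨⟨x, hback y y.2 x hx⟩, hx, hz⟩)
  obtain ⟨y₀, _⟩ := hS.1 x₀
  exact ⟨fun _ => h x₀ y₀, fun x y _ => hone _ _⟩

end Pool.Agent.W883.BW
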